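import Pool.Agent.Y865.SP.Stm

/-!
Two facts on the chambers of a finite reflection arrangement.
-/

set_option autoImplicit false

namespace Pool.Agent.Y445.SP

open scoped RealInnerProductSpace
open Filter Topology Pool.Agent.Y865.SP

section

variable {E : Type} [NormedAddCommGroup E] [InnerProductSpace ℝ E]

theorem inner_rf (n m x : E) : ⟪rf n m, x⟫ = ⟪m, x⟫ - 2 * ⟪n, m⟫ * ⟪n, x⟫ := by
  unfold rf
  rw [inner_sub_left, real_inner_smul_left]

theorem inner_self_one {n : E} (hn : ‖n‖ = 1) : ⟪n, n⟫ = (1 : ℝ) := by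
  rw [real_inner_self_eq_norm_sq, hn, one_pow]

theorem rf_rf {n : E} (hn : ‖n‖ = 1) (m : E) : rf n (rf n m) = m := by
  unfold rf
  rw [inner_sub_right, real_inner_smul_right, inner_self_one hn]
  module

theorem rf_self {n : E} (hn : ‖n‖ = 1) : rf n n = -n := by
  unfold rf
  rw [inner_self_one hn]
  module

theorem rf_neg (n m : E) : rf n (-m) = -rf n m := by
  unfold rf
  rw [inner_neg_right]
  module

theorem neg_mem {M : Set E} (h : Mirrors M) {m : E} (hm : m ∈ M) : -m ∈ M := by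
  rw [← rf_self (h.unit m hm)]
  exact h.closed m hm m hm

/-- the set of the points which are not on a mirror -/
def Reg (n : E) : Set E := {p | ⟪n, p⟫ ≠ (0 : ℝ)}

theorem isOpen_reg (n : E) : IsOpen (Reg n) := by
  have h : Continuous fun p : E => (⟪n, p⟫ : ℝ) := continuous_const.inner continuous_id
  exact isOpen_ne_fun h continuous_const

theorem dense_reg {n : E} (hn : ‖n‖ = 1) : Dense (Reg n) := by
  intro x
  by_cases hx : ⟪n, x⟫ = (0 : ℝ)
  · have h1 : Tendsto (fun t : ℝ => x + t • n) (𝓝[≠] 0) (𝓝 x) := by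
      have h2 : Continuous fun t : ℝ => x + t • n := by fun_prop
      have h3 := h2.tendsto 0
      rw [zero_smul, add_zero] at h3
      exact h3.mono_left nhdsWithin_le_nhds
    refine mem_closure_of_tendsto h1 ?_
    filter_upwards [self_mem_nhdsWithin] with t ht
    change ⟪n, x + t • n⟫ ≠ (0 : ℝ)
    rw [inner_add_right, real_inner_smul_right, inner_self_one hn, hx, zero_add, mul_one]
    exact ht
  · exact subset_closure hx

theorem reg_inter {M : Set E} (hfin : M.Finite) (hu : ∀ n ∈ M, ‖n‖ = 1) :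
    IsOpen (⋂ n ∈ M, Reg n) ∧ Dense (⋂ n ∈ M, Reg n) := by
  induction M, hfin using Set.Finite.induction_on with
  | empty => simp
  | insert hs _ ih =>
    obtain ⟨h1, h2⟩ := ih fun n hn => hu n (Set.mem_insert_of_mem _ hn)
    rw [Set.biInter_insert]
    exact ⟨(isOpen_reg _).inter h1,
      (dense_reg (hu _ (Set.mem_insert _ _))).inter_of_isOpen_left h2 (isOpen_reg _)⟩

/-- a point on no mirror on the same side of all the mirrors on which `x` is not -/
theorem exists_near {M : Set E} (hfin : M.Finite) (hu : ∀ n ∈ M, ‖n‖ = 1) (x : E) :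
    ∃ p : E, (∀ n ∈ M, ⟪n, p⟫ ≠ (0 : ℝ)) ∧
      ∀ n ∈ M, ⟪n, x⟫ ≠ (0 : ℝ) → (0 : ℝ) < ⟪n, x⟫ * ⟪n, p⟫ := by
  have h1 : ∀ᶠ p in 𝓝 x, ∀ n ∈ M, ⟪n, x⟫ ≠ (0 : ℝ) → (0 : ℝ) < ⟪n, x⟫ * ⟪n, p⟫ := by
    rw [eventually_all_finite hfin]
    intro n _
    by_cases hx : ⟪n, x⟫ = (0 : ℝ)
    · exact Eventually.of_forall fun p h => absurd hx h
    · have h2 : Continuous fun p : E => (⟪n, x⟫ * ⟪n, p⟫ : ℝ) :=
        continuous_const.mul (continuous_const.inner continuous_id)
      have h3 : (0 : ℝ) < ⟪n, x⟫ * ⟪n, x⟫ := mul_self_pos.2 hx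
      filter_upwards [(h2.tendsto x).eventually (lt_mem_nhds h3)] with p hp _
      exact hp
  obtain ⟨p, hp1, hp2⟩ := mem_closure_iff_nhds.1 ((reg_inter hfin hu).2 x) _ h1
  refine ⟨p, fun n hn => ?_, hp1⟩
  have := Set.mem_iInter₂.1 hp2 n hn
  exact this

end

theorem wall : S_WALL := by
  intro E _ _ M C C' n hM hC hC' hn hCC
  obtain ⟨p, hp, rfl⟩ := hC
  obtain ⟨p', hp', hC'e⟩ := hC'
  have hu := hM.unit n hn.1
  have hnn : -n ∈ C' := by
    rw [hCC]
    exact Or.inr rfl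
  have hnp' : ⟪n, p'⟫ < (0 : ℝ) := by
    rw [hC'e] at hnn
    have := hnn.2
    rw [inner_neg_left] at this
    linarith
  have hsub : C' ⊆ rf n '' {n | n ∈ M ∧ 0 < ⟪n, p⟫} := by
    intro m hm
    have hmM : m ∈ M ∧ (0 : ℝ) < ⟪m, p'⟫ := by
      rw [hC'e] at hm
      exact hm
    rw [hCC] at hm
    rcases hm with ⟨hm1, hm2⟩ | hm
    · by_contra hcon
      have hkM : rf n m ∈ M := hM.closed n hn.1 m hmM.1
      have hk1 : ¬ (0 : ℝ) < ⟪rf n m, p⟫ := fun h =>
        hcon ⟨rf n m, ⟨hkM, h⟩, rf_rf hu m⟩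
      have hk2 : ⟪rf n m, p⟫ < (0 : ℝ) :=
        lt_of_le_of_ne (not_lt.1 hk1) (hp _ hkM)
      have hkn : -rf n m ≠ n := by
        intro h
        apply hm2
        have h1 : rf n m = -n := neg_eq_iff_eq_neg.1 h
        have h2 := rf_rf hu m
        rw [h1, rf_neg, rf_self hu, neg_neg] at h2
        rw [Set.mem_singleton_iff, h2]
      have hk3 : -rf n m ∈ C' := by
        rw [hCC]
        refine Or.inl ⟨⟨neg_mem hM hkM, ?_⟩, hkn⟩
        rw [inner_neg_left]
        linarith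
      have hk4 : ⟪rf n m, p'⟫ < (0 : ℝ) := by
        rw [hC'e] at hk3
        have := hk3.2
        rw [inner_neg_left] at this
        linarith
      rw [inner_rf] at hk2 hk4
      have h1 := hn.2
      have h2 := hm1.2
      have h3 := hmM.2
      have h4 : (0 : ℝ) < ⟪n, m⟫ := by
        by_contra h
        push Not at h
        nlinarith
      nlinarith
    · rw [Set.mem_singleton_iff] at hm
      refine ⟨n, hn, ?_⟩
      rw [hm, rf_self hu]
  refine Set.Subset.antisymm hsub ?_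
  rintro _ ⟨c, hc, rfl⟩
  have hxM : rf n c ∈ M := hM.closed n hn.1 c hc.1
  by_contra hcon
  have h1 : ¬ (0 : ℝ) < ⟪rf n c, p'⟫ := fun h => hcon (by
    rw [hC'e]
    exact ⟨hxM, h⟩)
  have h2 : ⟪rf n c, p'⟫ < (0 : ℝ) := lt_of_le_of_ne (not_lt.1 h1) (hp' _ hxM)
  have h3 : -rf n c ∈ C' := by
    rw [hC'e]
    refine ⟨neg_mem hM hxM, ?_⟩
    rw [inner_neg_left]
    linarith
  obtain ⟨c2, hc2, hc2e⟩ := hsub h3
  have h4 : c2 = -c := by
    have h5 := rf_rf hu c2
    rw [hc2e, rf_neg, rf_rf hu] at h5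
    exact h5.symm
  have h6 := hc2.2
  have h7 := hc.2
  rw [h4, inner_neg_left] at h6
  linarith

theorem cover : S_COVER := by
  intro E _ _ M hM a b hab
  obtain ⟨p, hp1, hp2⟩ := exists_near hM.fin hM.unit (a + b)
  refine ⟨{n | n ∈ M ∧ 0 < ⟪n, p⟫}, ⟨p, hp1, rfl⟩, ?_⟩
  rintro n ⟨hn, hnp⟩
  have h1 : (0 : ℝ) ≤ ⟪n, a⟫ + ⟪n, b⟫ := by
    rw [← inner_add_right]
    by_contra h
    push Not at h
    have := hp2 n hn h.ne
    nlinarith
  have h2 : ⟪n, a⟫ < (0 : ℝ) → ⟪n, b⟫ ≤ (0 : ℝ) := by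
    intro h
    have h3 := hab (-n) (neg_mem hM hn) (by rw [inner_neg_left]; linarith)
    rw [inner_neg_left] at h3
    linarith
  have h3 : (0 : ℝ) ≤ ⟪n, a⟫ := by
    by_contra h
    push Not at h
    have := h2 h
    linarith
  refine ⟨h3, ?_⟩
  by_contra h
  push Not at h
  rcases h3.lt_or_eq with h4 | h4
  · have := hab n hn h4
    linarith
  · linarith

end Pool.Agent.Y445.SP
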